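import Pool.Agent.X248.Cost.Main

namespace Pool.Agent.X248.Cost

open Finset

variable {V : Type} [Fintype V] [DecidableEq V]

theorem num1 (b : ℕ) : (3 * (b * (4 * b + 4) + 1) + 1) * b + 1 ≤ 2 ^ (4 * b + 4) := by
  have h1 : b + 1 ≤ 2 ^ b := Nat.lt_two_pow_self
  have h2 : (b + 1) ^ 3 ≤ (2 ^ b) ^ 3 := Nat.pow_le_pow_left h1 3
  have h3 : (3 * (b * (4 * b + 4) + 1) + 1) * b + 1 ≤ 16 * (b + 1) ^ 3 := by
    nlinarith [Nat.zero_le b, Nat.zero_le (b ^ 2), Nat.zero_le (b ^ 3)]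
  calc (3 * (b * (4 * b + 4) + 1) + 1) * b + 1 ≤ 16 * (2 ^ b) ^ 3 :=
        h3.trans (Nat.mul_le_mul_left _ h2)
    _ = 2 ^ (3 * b + 4) := by rw [← pow_mul, pow_add]; ring
    _ ≤ 2 ^ (4 * b + 4) := Nat.pow_le_pow_right (by norm_num) (by omega)

theorem num2 (d b : ℕ) (hb : b = 2 ^ (d + 6) * d) :
    b * ((3 * (b * (4 * b + 4) + 1) + 1) * b) ≤ 2 ^ (2 ^ (d + 6)) := by
  have hd : d + 1 ≤ 2 ^ d := Nat.lt_two_pow_self
  have h1 : b + 1 ≤ 2 ^ (2 * d + 6) := by
    calc b + 1 ≤ 2 ^ (d + 6) * (d + 1) := by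
          rw [hb, mul_add, mul_one]
          exact Nat.add_le_add_left Nat.one_le_two_pow _
      _ ≤ 2 ^ (d + 6) * 2 ^ d := Nat.mul_le_mul_left _ hd
      _ = 2 ^ (2 * d + 6) := by rw [← pow_add]; congr 1; ring
  have h2 : (b + 1) ^ 4 ≤ (2 ^ (2 * d + 6)) ^ 4 := Nat.pow_le_pow_left h1 4
  have h3 : b * ((3 * (b * (4 * b + 4) + 1) + 1) * b) ≤ 16 * (b + 1) ^ 4 := by
    nlinarith [Nat.zero_le b, Nat.zero_le (b ^ 2), Nat.zero_le (b ^ 3), Nat.zero_le (b ^ 4)]
  calc b * ((3 * (b * (4 * b + 4) + 1) + 1) * b) ≤ 16 * (2 ^ (2 * d + 6)) ^ 4 :=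
        h3.trans (Nat.mul_le_mul_left _ h2)
    _ = 2 ^ (8 * d + 28) := by
        rw [← pow_mul, show (16 : ℕ) = 2 ^ 4 by norm_num, ← pow_add]; congr 1; ring
    _ ≤ 2 ^ (2 ^ (d + 6)) := by
        apply Nat.pow_le_pow_right (by norm_num)
        rw [pow_add]
        omega

theorem exists_set (H : Finset (Equiv.Perm V)) (hH : Gp H) (A X : Finset V) (hXA : X ⊆ A)
    (hA : ∀ h ∈ H, ∀ z, h z ∈ A ↔ z ∈ A) (hst : ∀ h ∈ st H X, ∀ z ∈ A, h z = z)
    (b : ℕ) (hb : #X ≤ b) (θ : ℕ) (hX : ∀ x ∈ X, θ < #(orb H x))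
    (hθ : #X * ((3 * (b * (4 * b + 4) + 1)) * #X) ≤ θ) :
    ∃ Y ⊆ A, #Y ≤ (3 * (b * (4 * b + 4) + 1) + 1) * b ∧
      ∀ h ∈ H, Inv h Y → ∀ z ∈ A, h z = z := by
  classical
  set k := b * (4 * b + 4) + 1 with hk
  set n := 3 * k with hn
  obtain ⟨h, h0, hm, hd⟩ := exists_translates H hH X θ hX n hθ
  set M := (range (n + 1)).biUnion (fun i => X.image (h i)) with hM
  have hXM : X ⊆ M := by
    intro x hx
    refine mem_biUnion.2 ⟨0, by simp, mem_image.2 ⟨x, hx, by simp [h0]⟩⟩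
  have hMA : M ⊆ A := by
    intro y hy
    obtain ⟨i, _, hi⟩ := mem_biUnion.1 hy
    obtain ⟨x, hx, rfl⟩ := mem_image.1 hi
    exact (hA _ (hm i) x).2 (hXA hx)
  have hMc : #M ≤ (n + 1) * b := by
    refine card_biUnion_le.trans ?_
    calc ∑ i ∈ range (n + 1), #(X.image (h i)) ≤ ∑ _i ∈ range (n + 1), b :=
          sum_le_sum fun i _ => card_image_le.trans hb
      _ = (n + 1) * b := by simp
  by_contra hcon
  have hall : ∀ Z ∈ (M \ X).powerset, ∃ g ∈ H, Inv g (X ∪ Z) ∧ ∃ z ∈ A, g z ≠ z := by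
    intro Z hZ
    by_contra hc
    apply hcon
    have hsub : X ∪ Z ⊆ M := union_subset hXM ((mem_powerset.1 hZ).trans sdiff_subset)
    refine ⟨X ∪ Z, hsub.trans hMA, (card_le_card hsub).trans hMc, ?_⟩
    intro g hg hi z hz
    by_contra hne
    exact hc ⟨g, hg, hi, z, hz, hne⟩
  let 𝒵 : ((x : V) → x ∈ X → V) → Finset (Finset V) := fun p =>
    ((M \ X).powerset).filter (fun Z => ∃ g ∈ H, Inv g (X ∪ Z) ∧ (∃ z ∈ A, g z ≠ z) ∧
      (fun x (_ : x ∈ X) => g x) = p)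
  have hcover : (M \ X).powerset ⊆ (X.pi (fun _ => M)).biUnion 𝒵 := by
    intro Z hZ
    obtain ⟨g, hg, hi, hz⟩ := hall Z hZ
    refine mem_biUnion.2 ⟨fun x _ => g x, Finset.mem_pi.2 fun x hx => ?_,
      mem_filter.2 ⟨hZ, g, hg, hi, hz, rfl⟩⟩
    have h1 : g x ∈ X ∪ Z := (hi x).2 (mem_union_left _ hx)
    exact (union_subset hXM ((mem_powerset.1 hZ).trans sdiff_subset)) h1
  have hbound : ∀ p, #(𝒵 p) * 2 ^ k ≤ 2 ^ #(M \ X) := by
    intro p
    rcases (𝒵 p).eq_empty_or_nonempty with he | ⟨Z0, hZ0⟩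
    · rw [he]; simp
    obtain ⟨_, g0, hg0, _, ⟨z0, hz0, hgz0⟩, hgp⟩ := mem_filter.1 hZ0
    have hv : ∀ i, ∃ v ∈ X.image (h i), g0 v ≠ v := by
      intro i
      by_contra hc
      have hc' : ∀ v ∈ X.image (h i), g0 v = v := by
        intro v hv
        by_contra hne
        exact hc ⟨v, hv, hne⟩
      have h1 : (h i)⁻¹ * g0 * h i ∈ st H X := by
        refine mem_filter.2 ⟨hH.mul _ (hH.mul _ (hH.inv _ (hm i)) _ hg0) _ (hm i), ?_⟩
        intro x hx
        simp only [Equiv.Perm.coe_mul, Function.comp_apply]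
        rw [hc' _ (mem_image_of_mem _ hx)]
        simp
      have h2 := hst _ h1 ((h i)⁻¹ z0) ((hA _ (hH.inv _ (hm i)) z0).2 hz0)
      have h3 : (h i) ((h i)⁻¹ z0) = z0 := by simp
      simp only [Equiv.Perm.coe_mul, Function.comp_apply, h3] at h2
      exact hgz0 ((h i)⁻¹.injective h2)
    choose v hvm hvg using hv
    have hvinj : Set.InjOn v (Icc 1 n : Finset ℕ) := by
      intro i hi j hj hij
      by_contra hne
      have h1 := mem_Icc.1 (mem_coe.1 hi)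
      have h2 := mem_Icc.1 (mem_coe.1 hj)
      have h3 := hd i h1.2 j h2.2 hne
      exact disjoint_left.1 h3 (hvm i) (hij ▸ hvm j)
    obtain ⟨U, hUW, hUg, hUc⟩ := exists_third g0 ((Icc 1 n).image v) (by
      intro w hw
      obtain ⟨i, _, rfl⟩ := mem_image.1 hw
      exact hvg i)
    rw [card_image_of_injOn hvinj, Nat.card_Icc, Nat.add_sub_cancel] at hUc
    have hUR : U ⊆ M \ X := by
      intro u hu
      obtain ⟨i, hi, rfl⟩ := mem_image.1 (hUW hu)
      have h1 := mem_Icc.1 hi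
      refine mem_sdiff.2 ⟨mem_biUnion.2 ⟨i, mem_range.2 (by omega), hvm i⟩, ?_⟩
      intro hx
      have h3 := hd 0 (by omega) i h1.2 (by omega)
      exact disjoint_left.1 h3 (mem_image.2 ⟨v i, hx, by simp [h0]⟩) (hvm i)
    have h5 := card_inv_le g0 X (M \ X) U disjoint_sdiff hUR hUg (𝒵 p) (by
      intro Z hZ
      obtain ⟨hZR, g, hg, hi, _, hgp'⟩ := mem_filter.1 hZ
      refine ⟨mem_powerset.1 hZR, ?_⟩
      have hagree : ∀ z ∈ A, g0 z = g z := by
        intro z hz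
        have h1 : g0⁻¹ * g ∈ st H X := by
          refine mem_filter.2 ⟨hH.mul _ (hH.inv _ hg0) _ hg, ?_⟩
          intro x hx
          have h2 : g0 x = g x := by
            rw [← hgp'] at hgp
            exact congrFun (congrFun hgp x) hx
          simp only [Equiv.Perm.coe_mul, Function.comp_apply]
          rw [← h2]; simp
        have h2 := hst _ h1 z hz
        simp only [Equiv.Perm.coe_mul, Function.comp_apply] at h2
        rw [Equiv.Perm.inv_eq_iff_eq] at h2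
        exact h2.symm
      have hsub : X ∪ Z ⊆ A :=
        (union_subset hXM ((mem_powerset.1 hZR).trans sdiff_subset)).trans hMA
      intro y
      by_cases hy : y ∈ A
      · rw [hagree y hy]; exact hi y
      · constructor
        · intro h1; exact absurd ((hA g0 hg0 y).1 (hsub h1)) hy
        · intro h1; exact absurd (hsub h1) hy)
    refine le_trans (Nat.mul_le_mul_left _ (Nat.pow_le_pow_right (by norm_num) ?_)) h5
    omega
  have h1 : 2 ^ #(M \ X) ≤ ∑ p ∈ X.pi (fun _ => M), #(𝒵 p) := by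
    rw [← card_powerset]
    exact (card_le_card hcover).trans card_biUnion_le
  have h2 : 2 ^ #(M \ X) * 2 ^ k ≤ #M ^ #X * 2 ^ #(M \ X) := by
    calc 2 ^ #(M \ X) * 2 ^ k ≤ (∑ p ∈ X.pi (fun _ => M), #(𝒵 p)) * 2 ^ k :=
          Nat.mul_le_mul_right _ h1
      _ = ∑ p ∈ X.pi (fun _ => M), #(𝒵 p) * 2 ^ k := sum_mul _ _ _
      _ ≤ ∑ _p ∈ X.pi (fun _ => M), 2 ^ #(M \ X) := sum_le_sum fun p _ => hbound p
      _ = #M ^ #X * 2 ^ #(M \ X) := by
          rw [sum_const, smul_eq_mul, card_pi, prod_const]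
  have h3 : 2 ^ k ≤ #M ^ #X := by
    have hpos : 0 < 2 ^ #(M \ X) := by positivity
    apply Nat.le_of_mul_le_mul_left _ hpos
    rw [mul_comm _ (#M ^ #X)]
    exact h2
  have h4 : #M ^ #X < 2 ^ k := by
    calc #M ^ #X ≤ ((n + 1) * b + 1) ^ #X := Nat.pow_le_pow_left (by omega) _
      _ ≤ ((n + 1) * b + 1) ^ b := Nat.pow_le_pow_right (by omega) hb
      _ ≤ (2 ^ (4 * b + 4)) ^ b := Nat.pow_le_pow_left (num1 b) _
      _ = 2 ^ (b * (4 * b + 4)) := by rw [← pow_mul, mul_comm]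
      _ < 2 ^ k := Nat.pow_lt_pow_right (by norm_num) (by omega)
  omega

theorem main (H : Finset (Equiv.Perm V)) (hH : Gp H) (B : Finset V)
    (hB : ∀ h ∈ H, (∀ b ∈ B, h b = b) → h = 1) (S : Finset V)
    (hS : ∀ h ∈ H, Inv h S → h = 1) :
    ∃ T : Finset V, #T ≤ 2 ^ (2 ^ (#B + 6) * #B) + 2 ^ (2 ^ (#B + 6)) ∧
      ∀ h ∈ H, Inv h T → h = 1 := by
  classical
  rcases isEmpty_or_nonempty V with hVe | hVn
  · exact ⟨∅, by simp, fun h _ _ => Subsingleton.elim _ _⟩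
  set d := #B with hd
  set ℓ := 2 ^ (d + 6) with hℓ
  have hℓ1 : 1 ≤ ℓ := Nat.one_le_two_pow
  set A := (univ : Finset V).filter (fun x => 2 ^ ℓ < #(orb H x)) with hAdef
  have horb : ∀ h ∈ H, ∀ x, orb H (h x) = orb H x := by
    intro h hh x
    ext y
    constructor
    · intro hy
      obtain ⟨g, hg, rfl⟩ := mem_image.1 hy
      exact mem_image.2 ⟨g * h, hH.mul _ hg _ hh, rfl⟩
    · intro hy
      obtain ⟨g, hg, rfl⟩ := mem_image.1 hy
      exact mem_image.2 ⟨g * h⁻¹, hH.mul _ hg _ (hH.inv _ hh), by simp⟩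
  have hA : ∀ h ∈ H, ∀ z, h z ∈ A ↔ z ∈ A := by
    intro h hh z
    simp only [hAdef, mem_filter, mem_univ, true_and, horb h hh z]
  have hst0 : #(st H (B ∩ A)) ≤ (2 ^ ℓ) ^ #(B \ A) := by
    apply st_card_le H hH B hB A
    intro b hb
    have := (mem_sdiff.1 hb).2
    simp only [hAdef, mem_filter, mem_univ, true_and, not_lt] at this
    exact this
  have hsum : #(B ∩ A) + #(B \ A) = d := by rw [hd]; exact card_inter_add_card_sdiff B A
  obtain ⟨X, hBX, hXA, hXc, hXst⟩ := exists_base H hH (B ∩ A) A inter_subset_right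
  have hXb : #X ≤ ℓ * d := by
    have h1 : 1 ≤ #(st H X) := card_pos.2 ⟨1, mem_filter.2 ⟨hH.one, fun _ _ => rfl⟩⟩
    have h2 : 2 ^ #X ≤ 2 ^ (ℓ * d) := by
      calc 2 ^ #X ≤ 2 ^ #X * #(st H X) := Nat.le_mul_of_pos_right _ h1
        _ ≤ 2 ^ #(B ∩ A) * #(st H (B ∩ A)) := hXc
        _ ≤ 2 ^ #(B ∩ A) * (2 ^ ℓ) ^ #(B \ A) := Nat.mul_le_mul_left _ hst0
        _ = 2 ^ (#(B ∩ A) + ℓ * #(B \ A)) := by rw [← pow_mul, pow_add]
        _ ≤ 2 ^ (ℓ * d) := by
            apply Nat.pow_le_pow_right (by norm_num)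
            rw [← hsum, mul_add]
            exact Nat.add_le_add_right (Nat.le_mul_of_pos_left _ hℓ1) _
    exact (Nat.pow_le_pow_iff_right (by norm_num)).1 h2
  have hnum := num2 d (ℓ * d) rfl
  set b := ℓ * d with hb
  obtain ⟨Y, hYA, hYc, hYs⟩ := exists_set H hH A X hXA hA hXst b hXb (2 ^ ℓ)
    (fun x hx => (mem_filter.1 (hXA hx)).2) (by
      refine le_trans ?_ hnum
      gcongr
      omega)
  have hYc' : #Y ≤ 2 ^ ℓ := by
    refine hYc.trans (le_trans ?_ hnum)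
    rcases Nat.eq_zero_or_pos b with h0 | h0
    · simp [h0]
    · exact Nat.le_mul_of_pos_left _ h0
  have ht : ∀ g ∈ H, g ≠ 1 → ∃ t ∈ S, g t ∉ S := by
    intro g hg hne
    by_contra hc
    apply hne
    apply hS g hg
    have hc' : ∀ t ∈ S, g t ∈ S := by
      intro t ht
      by_contra h1
      exact hc ⟨t, ht, h1⟩
    have himg : S.image g = S := by
      apply eq_of_subset_of_card_le
      · intro y hy
        obtain ⟨t, ht, rfl⟩ := mem_image.1 hy
        exact hc' t ht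
      · rw [card_image_of_injective _ g.injective]
    intro y
    constructor
    · intro hy
      rw [← himg] at hy
      obtain ⟨t, ht, hte⟩ := mem_image.1 hy
      rw [← g.injective hte]; exact ht
    · exact hc' y
  choose! t htS htn using ht
  set K := H.filter (fun h => ∀ z ∈ A, h z = z) with hK
  have hKc : #K ≤ 2 ^ (ℓ * d) := by
    calc #K ≤ #(st H (B ∩ A)) := by
          apply card_le_card
          intro g hg
          have := mem_filter.1 hg
          exact mem_filter.2 ⟨this.1, fun x hx => this.2 x (mem_inter.1 hx).2⟩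
      _ ≤ (2 ^ ℓ) ^ #(B \ A) := hst0
      _ = 2 ^ (ℓ * #(B \ A)) := by rw [← pow_mul]
      _ ≤ 2 ^ (ℓ * d) := Nat.pow_le_pow_right (by norm_num) (Nat.mul_le_mul_left _ (by omega))
  set T0 := (K.filter (fun g => g ≠ 1)).image t with hT0
  have hT0A : ∀ x ∈ T0, x ∉ A := by
    intro x hx hxA
    obtain ⟨g, hg, rfl⟩ := mem_image.1 hx
    have h1 := mem_filter.1 hg
    have h2 := mem_filter.1 h1.1
    have h3 := h2.2 _ hxA
    have h4 := htn g h2.1 h1.2
    rw [h3] at h4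
    exact h4 (htS g h2.1 h1.2)
  have hT0S : ∀ x ∈ T0, x ∈ S := by
    intro x hx
    obtain ⟨g, hg, rfl⟩ := mem_image.1 hx
    have h1 := mem_filter.1 hg
    have h2 := mem_filter.1 h1.1
    exact htS g h2.1 h1.2
  refine ⟨T0 ∪ Y, ?_, ?_⟩
  · refine (card_union_le _ _).trans (Nat.add_le_add ?_ hYc')
    exact card_image_le.trans ((card_filter_le _ _).trans hKc)
  · intro h hh hi
    have hmem : ∀ y, y ∈ Y ↔ (y ∈ T0 ∪ Y ∧ y ∈ A) := by
      intro y
      constructor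
      · intro hy; exact ⟨mem_union_right _ hy, hYA hy⟩
      · rintro ⟨h1, h2⟩
        rcases mem_union.1 h1 with h3 | h3
        · exact absurd h2 (hT0A y h3)
        · exact h3
    have hiY : Inv h Y := by
      intro y
      rw [hmem, hmem, hi y, hA h hh y]
    have hKmem : h ∈ K := mem_filter.2 ⟨hh, hYs h hh hiY⟩
    by_contra hne
    have h1 : t h ∈ T0 := mem_image_of_mem _ (mem_filter.2 ⟨hKmem, hne⟩)
    have h2 : h (t h) ∈ T0 ∪ Y := (hi _).2 (mem_union_left _ h1)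
    have h3 : h (t h) ∉ A := fun h4 => hT0A _ h1 ((hA h hh _).1 h4)
    rcases mem_union.1 h2 with h4 | h4
    · exact htn h hh hne (hT0S _ h4)
    · exact h3 (hYA h4)

end Pool.Agent.X248.Cost
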