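import Mathlib

/-! Bounded sets with trivial setwise stabiliser in permutation groups with a small base. -/

namespace Pool.Agent.X248.Cost

open Finset

variable {V : Type} [Fintype V] [DecidableEq V]

/-- a finite set of permutations closed under the group operations -/
structure Gp (H : Finset (Equiv.Perm V)) : Prop where
  one : (1 : Equiv.Perm V) ∈ H
  mul : ∀ a ∈ H, ∀ b ∈ H, a * b ∈ H
  inv : ∀ a ∈ H, a⁻¹ ∈ H

/-- the orbit of `x` -/
def orb (H : Finset (Equiv.Perm V)) (x : V) : Finset V := H.image (fun h => h x)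

/-- `g` maps the set `Y` onto itself -/
def Inv (g : Equiv.Perm V) (Y : Finset V) : Prop := ∀ y, g y ∈ Y ↔ y ∈ Y

/-- the pointwise stabiliser -/
def st (H : Finset (Equiv.Perm V)) (X : Finset V) : Finset (Equiv.Perm V) :=
  H.filter (fun h => ∀ x ∈ X, h x = x)

theorem card_map_mul (H : Finset (Equiv.Perm V)) (hH : Gp H) (x f : V) :
    #(H.filter (fun h => h x = f)) * #(orb H x) ≤ #H := by
  classical
  rcases (H.filter (fun h => h x = f)).eq_empty_or_nonempty with h0 | ⟨h0, hh0⟩
  · rw [h0]; simp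
  · have hh0' := mem_filter.1 hh0
    have hc : ∀ y ∈ orb H x, ∃ c ∈ H, c x = y := by
      intro y hy
      obtain ⟨c, hc, rfl⟩ := mem_image.1 hy
      exact ⟨c, hc, rfl⟩
    choose! c hcH hcx using hc
    rw [← card_product]
    apply card_le_card_of_injOn (fun p => c p.2 * h0⁻¹ * p.1)
    · intro p hp
      have hp' := mem_product.1 (mem_coe.1 hp)
      have h1 := mem_filter.1 hp'.1
      exact mem_coe.2 (hH.mul _ (hH.mul _ (hcH _ hp'.2) _ (hH.inv _ hh0'.1)) _ h1.1)
    · intro p hp q hq hpq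
      have hp' := mem_product.1 (mem_coe.1 hp)
      have hq' := mem_product.1 (mem_coe.1 hq)
      have h1 := mem_filter.1 hp'.1
      have h2 := mem_filter.1 hq'.1
      have e0 : h0⁻¹ f = x := by rw [← hh0'.2]; simp
      have key : ∀ p : Equiv.Perm V × V, p.1 x = f → p.2 ∈ orb H x →
          (c p.2 * h0⁻¹ * p.1) x = p.2 := by
        intro p hp1 hp2
        simp only [Equiv.Perm.coe_mul, Function.comp_apply]
        rw [hp1, e0, hcx _ hp2]
      have e1 := key p h1.2 hp'.2
      have e2 := key q h2.2 hq'.2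
      have e3 : p.2 = q.2 := by
        rw [← e1, ← e2]
        exact congrArg (fun s : Equiv.Perm V => s x) hpq
      have e4 : p.1 = q.1 := by
        have : c p.2 * h0⁻¹ * p.1 = c q.2 * h0⁻¹ * q.1 := hpq
        rw [e3] at this
        exact mul_left_cancel this
      exact Prod.ext e4 e3

theorem st_insert_card (H : Finset (Equiv.Perm V)) (hH : Gp H) (X : Finset V) (z : V)
    (h0 : Equiv.Perm V) (hh0 : h0 ∈ st H X) (hz : h0 z ≠ z) :
    2 * #(st H (insert z X)) ≤ #(st H X) := by
  classical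
  have hd : Disjoint (st H (insert z X)) ((st H (insert z X)).image (fun s => h0 * s)) := by
    rw [disjoint_left]
    intro a ha ha'
    obtain ⟨s, hs, rfl⟩ := mem_image.1 ha'
    have h1 := (mem_filter.1 ha).2 z (mem_insert_self _ _)
    have h2 := (mem_filter.1 hs).2 z (mem_insert_self _ _)
    simp only [Equiv.Perm.coe_mul, Function.comp_apply, h2] at h1
    exact hz h1
  have hsub : (st H (insert z X)) ∪ ((st H (insert z X)).image (fun s => h0 * s)) ⊆ st H X := by
    intro a ha
    rcases mem_union.1 ha with ha | ha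
    · have := mem_filter.1 ha
      exact mem_filter.2 ⟨this.1, fun x hx => this.2 x (mem_insert_of_mem hx)⟩
    · obtain ⟨s, hs, rfl⟩ := mem_image.1 ha
      have h1 := mem_filter.1 hs
      have h2 := mem_filter.1 hh0
      refine mem_filter.2 ⟨hH.mul _ h2.1 _ h1.1, fun x hx => ?_⟩
      simp only [Equiv.Perm.coe_mul, Function.comp_apply]
      rw [h1.2 x (mem_insert_of_mem hx), h2.2 x hx]
  have h3 := card_le_card hsub
  rw [card_union_of_disjoint hd, card_image_of_injective _ (mul_right_injective h0)] at h3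
  omega

theorem st_card_le (H : Finset (Equiv.Perm V)) (hH : Gp H) (B : Finset V)
    (hB : ∀ h ∈ H, (∀ b ∈ B, h b = b) → h = 1) (A : Finset V) (θ : ℕ)
    (hθ : ∀ b ∈ B \ A, #(orb H b) ≤ θ) :
    #(st H (B ∩ A)) ≤ θ ^ #(B \ A) := by
  classical
  calc #(st H (B ∩ A)) ≤ #((B \ A).pi (fun b => orb H b)) := by
        apply card_le_card_of_injOn (fun h => fun b _ => h b)
        · intro h hh
          refine mem_coe.2 (Finset.mem_pi.2 fun b _ => mem_image.2 ⟨h, (mem_filter.1 hh).1, rfl⟩)
        · intro h hh k hk hhk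
          have h1 := mem_filter.1 (mem_coe.1 hh)
          have h2 := mem_filter.1 (mem_coe.1 hk)
          have h3 : h⁻¹ * k = 1 := by
            apply hB _ (hH.mul _ (hH.inv _ h1.1) _ h2.1)
            intro b hb
            simp only [Equiv.Perm.coe_mul, Function.comp_apply]
            by_cases hbA : b ∈ A
            · rw [h2.2 b (mem_inter.2 ⟨hb, hbA⟩)]
              conv_lhs => rw [← h1.2 b (mem_inter.2 ⟨hb, hbA⟩)]
              simp
            · have : h b = k b := congrFun (congrFun hhk b) (mem_sdiff.2 ⟨hb, hbA⟩)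
              rw [← this]; simp
          exact (inv_mul_eq_one.1 h3)
    _ = ∏ b ∈ B \ A, #(orb H b) := card_pi _ _
    _ ≤ θ ^ #(B \ A) := prod_le_pow_card _ _ _ hθ

/-- a base of bounded size inside the large part `A` -/
theorem exists_base (H : Finset (Equiv.Perm V)) (hH : Gp H) (X0 A : Finset V) (hX0 : X0 ⊆ A) :
    ∃ X, X0 ⊆ X ∧ X ⊆ A ∧ 2 ^ #X * #(st H X) ≤ 2 ^ #X0 * #(st H X0) ∧
      ∀ h ∈ st H X, ∀ z ∈ A, h z = z := by
  classical
  obtain ⟨X, hX, hmax⟩ := exists_max_image
    ((A.powerset).filter (fun X => X0 ⊆ X ∧ 2 ^ #X * #(st H X) ≤ 2 ^ #X0 * #(st H X0))) card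
    ⟨X0, mem_filter.2 ⟨mem_powerset.2 hX0, Subset.refl _, le_refl _⟩⟩
  have hX' := mem_filter.1 hX
  refine ⟨X, hX'.2.1, mem_powerset.1 hX'.1, hX'.2.2, ?_⟩
  intro h hh z hz
  by_contra hne
  have hzX : z ∉ X := fun hzX => hne ((mem_filter.1 hh).2 z hzX)
  have h1 := st_insert_card H hH X z h hh hne
  have h2 : insert z X ∈ (A.powerset).filter
      (fun X => X0 ⊆ X ∧ 2 ^ #X * #(st H X) ≤ 2 ^ #X0 * #(st H X0)) := by
    refine mem_filter.2 ⟨mem_powerset.2 (insert_subset hz (mem_powerset.1 hX'.1)),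
      hX'.2.1.trans (subset_insert _ _), ?_⟩
    rw [card_insert_of_notMem hzX, pow_succ]
    calc 2 ^ #X * 2 * #(st H (insert z X)) = 2 ^ #X * (2 * #(st H (insert z X))) := by ring
      _ ≤ 2 ^ #X * #(st H X) := Nat.mul_le_mul_left _ h1
      _ ≤ _ := hX'.2.2
  have h3 := hmax _ h2
  rw [card_insert_of_notMem hzX] at h3
  omega

theorem exists_disjoint (H : Finset (Equiv.Perm V)) (hH : Gp H) (X F : Finset V) (θ : ℕ)
    (hX : ∀ x ∈ X, θ < #(orb H x)) (hθ : #X * #F ≤ θ) :
    ∃ h ∈ H, Disjoint (X.image h) F := by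
  classical
  by_contra hcon
  push_neg at hcon
  have hsub : H ⊆ (X ×ˢ F).biUnion (fun p => H.filter (fun h => h p.1 = p.2)) := by
    intro h hh
    have := hcon h hh
    rw [not_disjoint_iff] at this
    obtain ⟨a, ha, haF⟩ := this
    obtain ⟨x, hx, rfl⟩ := mem_image.1 ha
    exact mem_biUnion.2 ⟨(x, h x), mem_product.2 ⟨hx, haF⟩, mem_filter.2 ⟨hh, rfl⟩⟩
  have h1 := (card_le_card hsub).trans card_biUnion_le
  have h2 : (θ + 1) * #H ≤ ∑ p ∈ X ×ˢ F, #H := by
    calc (θ + 1) * #H ≤ (θ + 1) * ∑ p ∈ X ×ˢ F, #(H.filter (fun h => h p.1 = p.2)) :=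
          Nat.mul_le_mul_left _ h1
      _ = ∑ p ∈ X ×ˢ F, #(H.filter (fun h => h p.1 = p.2)) * (θ + 1) := by
          rw [mul_comm, sum_mul]
      _ ≤ ∑ p ∈ X ×ˢ F, #H := by
          apply sum_le_sum
          intro p hp
          calc #(H.filter (fun h => h p.1 = p.2)) * (θ + 1)
              ≤ #(H.filter (fun h => h p.1 = p.2)) * #(orb H p.1) :=
                Nat.mul_le_mul_left _ (hX _ (mem_product.1 hp).1)
            _ ≤ #H := card_map_mul H hH _ _
  rw [sum_const, card_product, smul_eq_mul] at h2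
  have hpos : 0 < #H := card_pos.2 ⟨1, hH.one⟩
  have h3 : #X * #F * #H ≤ θ * #H := Nat.mul_le_mul_right _ hθ
  nlinarith

theorem exists_translates (H : Finset (Equiv.Perm V)) (hH : Gp H) (X : Finset V) (θ : ℕ)
    (hX : ∀ x ∈ X, θ < #(orb H x)) (n : ℕ) (hθ : #X * (n * #X) ≤ θ) :
    ∃ h : ℕ → Equiv.Perm V, h 0 = 1 ∧ (∀ i, h i ∈ H) ∧
      ∀ i ≤ n, ∀ j ≤ n, i ≠ j → Disjoint (X.image (h i)) (X.image (h j)) := by
  classical
  induction n with
  | zero =>
    refine ⟨fun _ => 1, rfl, fun _ => hH.one, ?_⟩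
    intro i hi j hj hij
    omega
  | succ n ih =>
    obtain ⟨h, h0, hm, hd⟩ := ih (le_trans (by gcongr; omega) hθ)
    obtain ⟨g, hg, hgd⟩ := exists_disjoint H hH X
      ((range (n + 1)).biUnion (fun i => X.image (h i))) θ hX (by
        refine le_trans (Nat.mul_le_mul_left _ ?_) hθ
        refine card_biUnion_le.trans ?_
        calc ∑ i ∈ range (n + 1), #(X.image (h i)) ≤ ∑ _i ∈ range (n + 1), #X :=
              sum_le_sum fun i _ => card_image_le
          _ = (n + 1) * #X := by simp)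
    have hg' : ∀ j ≤ n, Disjoint (X.image g) (X.image (h j)) := by
      intro j hj
      exact disjoint_of_subset_right
        (subset_biUnion_of_mem (fun i => X.image (h i)) (mem_range.2 (by omega))) hgd
    refine ⟨fun i => if i ≤ n then h i else g, by simp [h0], ?_, ?_⟩
    · intro i
      by_cases hi : i ≤ n
      · simp only [hi, if_true]; exact hm i
      · simp only [hi, if_false]; exact hg
    · intro i hi j hj hij
      by_cases h1 : i ≤ n <;> by_cases h2 : j ≤ n
      · simp only [h1, h2, if_true]; exact hd i h1 j h2 hij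
      · simp only [h1, h2, if_true, if_false]; exact (hg' i h1).symm
      · simp only [h1, h2, if_true, if_false]; exact hg' j h2
      · omega

/-- a maximal independent piece of a set of moved points -/
theorem exists_third (g : Equiv.Perm V) (W : Finset V) (hW : ∀ v ∈ W, g v ≠ v) :
    ∃ U ⊆ W, (∀ v ∈ U, g v ∉ U) ∧ #W ≤ 3 * #U := by
  classical
  obtain ⟨U, hU, hmax⟩ := exists_max_image
    ((W.powerset).filter (fun U => ∀ v ∈ U, g v ∉ U)) card
    ⟨∅, mem_filter.2 ⟨mem_powerset.2 (empty_subset _), by simp⟩⟩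
  have hU' := mem_filter.1 hU
  refine ⟨U, mem_powerset.1 hU'.1, hU'.2, ?_⟩
  have hsub : W ⊆ U ∪ (U.image g ∪ U.image g.symm) := by
    intro w hw
    by_contra hn
    simp only [mem_union, mem_image, not_or, not_exists, not_and] at hn
    obtain ⟨hwU, hn1, hn2⟩ := hn
    have : insert w U ∈ (W.powerset).filter (fun U => ∀ v ∈ U, g v ∉ U) := by
      refine mem_filter.2 ⟨mem_powerset.2 (insert_subset hw (mem_powerset.1 hU'.1)), ?_⟩
      intro v hv hgv
      rcases mem_insert.1 hv with rfl | hv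
      · rcases mem_insert.1 hgv with h | h
        · exact hW _ hw h
        · exact hn2 _ h (by simp)
      · rcases mem_insert.1 hgv with h | h
        · exact hn1 v hv h
        · exact hU'.2 v hv h
    have := hmax _ this
    rw [card_insert_of_notMem hwU] at this
    omega
  calc #W ≤ #(U ∪ (U.image g ∪ U.image g.symm)) := card_le_card hsub
    _ ≤ #U + (#(U.image g) + #(U.image g.symm)) :=
        (card_union_le _ _).trans (Nat.add_le_add_left (card_union_le _ _) _)
    _ ≤ #U + (#U + #U) := by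
        have h1 : #(U.image g) ≤ #U := card_image_le
        have h2 : #(U.image g.symm) ≤ #U := card_image_le
        omega
    _ = 3 * #U := by ring

/-- a permutation moving many points of `R` leaves few sets `X ∪ Z`, `Z ⊆ R`, invariant -/
theorem card_inv_le (g : Equiv.Perm V) (X R U : Finset V) (hXR : Disjoint X R) (hU : U ⊆ R)
    (hind : ∀ v ∈ U, g v ∉ U) (𝒵 : Finset (Finset V)) (h𝒵 : ∀ Z ∈ 𝒵, Z ⊆ R ∧ Inv g (X ∪ Z)) :
    #𝒵 * 2 ^ #U ≤ 2 ^ #R := by
  classical
  have h1 : #𝒵 ≤ #((R \ U).powerset) := by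
    apply card_le_card_of_injOn (fun Z => Z \ U)
    · intro Z hZ
      exact mem_coe.2 (mem_powerset.2 (sdiff_subset_sdiff (h𝒵 Z hZ).1 (Subset.refl _)))
    · have key : ∀ Z1 ∈ 𝒵, ∀ Z2 ∈ 𝒵, Z1 \ U = Z2 \ U → Z1 ⊆ Z2 := by
        intro Z1 hZ1 Z2 hZ2 he v hv
        by_cases hvU : v ∈ U
        · have a1 : g v ∈ X ∪ Z1 := ((h𝒵 Z1 hZ1).2 v).2 (mem_union_right _ hv)
          have a2 : g v ∈ X ∪ Z2 := by
            rcases mem_union.1 a1 with a | a
            · exact mem_union_left _ a
            · have : g v ∈ Z1 \ U := mem_sdiff.2 ⟨a, hind v hvU⟩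
              rw [he] at this
              exact mem_union_right _ (mem_sdiff.1 this).1
          have a3 : v ∈ X ∪ Z2 := ((h𝒵 Z2 hZ2).2 v).1 a2
          rcases mem_union.1 a3 with a | a
          · exact absurd (hU hvU) (disjoint_left.1 hXR a)
          · exact a
        · have : v ∈ Z1 \ U := mem_sdiff.2 ⟨hv, hvU⟩
          rw [he] at this
          exact (mem_sdiff.1 this).1
      intro Z1 hZ1 Z2 hZ2 he
      exact Subset.antisymm (key _ hZ1 _ hZ2 he) (key _ hZ2 _ hZ1 he.symm)
  rw [card_powerset, card_sdiff_of_subset hU] at h1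
  calc #𝒵 * 2 ^ #U ≤ 2 ^ (#R - #U) * 2 ^ #U := Nat.mul_le_mul_right _ h1
    _ = 2 ^ #R := by rw [← pow_add, Nat.sub_add_cancel (card_le_card hU)]

end Pool.Agent.X248.Cost
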